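import Pool.Graph.R_pool_sql_team_seeded_47a924f7.Results.MP_319742_pr.SmoothDensity
import Pool.Agent.H53Pos.Pos

/-!
# The nontrivial solution of the cooperative-branching RDE has an everywhere positive smooth density

Every solution on `[0,1]` that charges `(0,1)` is, off its atom at `0`, absolutely continuous, with
a density that is `C^∞` and strictly positive at every point of `(0,1)`; in particular it charges
every nonempty open subset of `(0,1)`.
-/

namespace Pool.Agent.Results.MP_319742_pr.PositiveSmoothDensity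

open MeasureTheory

theorem result :
    ∀ (α : ℝ) (ν : Measure ℝ), 4 < α → IsProbabilityMeasure ν → ν (Set.Icc 0 1)ᶜ = 0 →
      -- `ν` is the law of `χ (η₁ + (1 - η₁) η₂ η₃)`
      ν = ((ENNReal.ofReal (1 / (α + 1)) • Measure.dirac (0 : ℝ) +
              ENNReal.ofReal (α / (α + 1)) • Measure.dirac (1 : ℝ)).prod
            (ν.prod (ν.prod ν))).map
          (fun q : ℝ × ℝ × ℝ × ℝ => q.1 * (q.2.1 + (1 - q.2.1) * q.2.2.1 * q.2.2.2)) →
      -- nontrivial
      0 < ν (Set.Ioo 0 1) →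
      ∃ f : ℝ → ℝ, (∀ x, 0 ≤ f x) ∧ ContDiffOn ℝ (⊤ : ℕ∞) f (Set.Ioo 0 1) ∧
        ν = ν {0} • Measure.dirac (0 : ℝ) +
          (volume.restrict (Set.Icc 0 1)).withDensity (fun x => ENNReal.ofReal (f x)) ∧
        (∀ x ∈ Set.Ioo (0 : ℝ) 1, 0 < f x) ∧
        ∀ V : Set ℝ, IsOpen V → (V ∩ Set.Ioo 0 1).Nonempty → 0 < ν V := by
  intro α ν hα hν h01 hsol hnt
  obtain ⟨f, hf0, hf, hrep⟩ :=
    Pool.Agent.Results.MP_319742_pr.SmoothDensity.result α ν hα hν h01 hsol hnt
  have hα1 : 0 < α + 1 := by linarith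
  have hc1 : ENNReal.ofReal (α / (α + 1)) ≠ 0 := by
    have : 0 < α / (α + 1) := div_pos (by linarith) hα1
    simpa using this
  have h00 : 0 < ν {0} := by
    have h1 : ENNReal.ofReal (1 / (α + 1)) ≤ ν {0} := by
      conv_rhs => rw [hsol]
      have hm : Measurable fun q : ℝ × ℝ × ℝ × ℝ =>
          q.1 * (q.2.1 + (1 - q.2.1) * q.2.2.1 * q.2.2.2) := by fun_prop
      rw [Measure.map_apply hm (measurableSet_singleton 0),
        Measure.prod_apply (hm (measurableSet_singleton 0)), lintegral_add_measure,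
        lintegral_smul_measure, lintegral_smul_measure, lintegral_dirac, lintegral_dirac]
      refine le_add_right ?_
      have : (Prod.mk (0 : ℝ) ⁻¹' ((fun q : ℝ × ℝ × ℝ × ℝ =>
          q.1 * (q.2.1 + (1 - q.2.1) * q.2.2.1 * q.2.2.2)) ⁻¹' {0})) = Set.univ := by
        ext q; simp
      rw [this, measure_univ, smul_eq_mul, mul_one]
    refine lt_of_lt_of_le ?_ h1
    have : 0 < 1 / (α + 1) := by positivity
    simpa using this
  have hpos := Pool.Agent.H53Pos.pos hc1 ENNReal.ofReal_ne_top hsol hrep hf0 hf.continuousOn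
    h00 hnt
  refine ⟨f, hf0, hf, hrep, hpos, ?_⟩
  rintro V hV ⟨x, hxV, hx⟩
  have hW : IsOpen (V ∩ Set.Ioo 0 1) := hV.inter isOpen_Ioo
  refine lt_of_lt_of_le ?_ (measure_mono (Set.inter_subset_left (t := Set.Ioo (0 : ℝ) 1)))
  rw [Pool.Agent.H53Pos.nuI hrep hW.measurableSet Set.inter_subset_right, pos_iff_ne_zero]
  intro h0
  have hmeas : AEMeasurable (fun y => ENNReal.ofReal (f y))
      (volume.restrict (V ∩ Set.Ioo 0 1)) :=
    ((hf.continuousOn.mono Set.inter_subset_right).aemeasurable hW.measurableSet).ennreal_ofReal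
  rw [lintegral_eq_zero_iff' hmeas] at h0
  have h1 : ∀ᵐ y ∂(volume.restrict (V ∩ Set.Ioo 0 1)), False := by
    filter_upwards [h0, ae_restrict_mem hW.measurableSet] with y hy hyW
    have h2 : ENNReal.ofReal (f y) = 0 := hy
    rw [ENNReal.ofReal_eq_zero] at h2
    exact absurd (hpos y hyW.2) (not_lt.2 h2)
  have h2 : volume.restrict (V ∩ Set.Ioo 0 1) = 0 := by
    rw [← ae_eq_bot]
    exact Filter.eventually_false_iff_eq_bot.1 h1
  rw [Measure.restrict_eq_zero] at h2
  exact (hW.measure_pos volume ⟨x, hxV, hx⟩).ne' h2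

end Pool.Agent.Results.MP_319742_pr.PositiveSmoothDensity
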